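import Mathlib
import Pool.Agent.P.MP_11b517_an.Main

set_option autoImplicit false

open MeasureTheory

namespace Pool.Agent.Results.MP_11b517_an.FreeNoModel

/-- For every free group of rank at least two (finite or countably infinite) there is an
essentially free ergodic measure-preserving action on a standard probability space that has no
uniquely ergodic topological model. -/
theorem result (ι : Type) [Countable ι] [Nontrivial ι] :
    ∃ (Ω : Type) (_ : MeasurableSpace Ω) (_ : StandardBorelSpace Ω)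
      (_ : MulAction (FreeGroup ι) Ω) (μ : Measure Ω),
      IsProbabilityMeasure μ ∧
      (∀ g : FreeGroup ι, MeasurePreserving (fun ω : Ω => g • ω) μ μ) ∧
      (∀ s : Set Ω, MeasurableSet s →
          (∀ g : FreeGroup ι, (fun ω : Ω => g • ω) ⁻¹' s = s) → μ s = 0 ∨ μ s = 1) ∧
      (∀ g : FreeGroup ι, g ≠ 1 → μ {ω : Ω | g • ω = ω} = 0) ∧
      ¬ ∃ (X : Type) (_ : TopologicalSpace X) (_ : MeasurableSpace X)
        (_ : MulAction (FreeGroup ι) X),
        BorelSpace X ∧ CompactSpace X ∧ TopologicalSpace.MetrizableSpace X ∧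
        (∀ g : FreeGroup ι, Continuous (fun x : X => g • x)) ∧
        ∃ ν : Measure X, IsProbabilityMeasure ν ∧
          (∀ g : FreeGroup ι, Measure.map (fun x : X => g • x) ν = ν) ∧
          (∀ ν' : Measure X, IsProbabilityMeasure ν' →
              (∀ g : FreeGroup ι, Measure.map (fun x : X => g • x) ν' = ν') → ν' = ν) ∧
          ∃ (φ : Ω → X) (ψ : X → Ω), Measurable φ ∧ Measurable ψ ∧
            Measure.map φ μ = ν ∧
            (∀ g : FreeGroup ι, ∀ᵐ ω ∂μ, φ (g • ω) = g • φ ω) ∧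
            (∀ᵐ ω ∂μ, ψ (φ ω) = ω) ∧
            (∀ᵐ x ∂ν, φ (ψ x) = x) := by
  obtain ⟨Ω, i1, i2, i3, μ, h1, h2, h3, h4, h5⟩ := Pool.Agent.P.MP_11b517_an.main ι
  refine ⟨Ω, i1, i2, i3, μ, h1, h2, h3, h4, ?_⟩
  rintro ⟨X, _, _, _, _, _, _, hc, ν, _, -, hu, φ, ψ, hφ, hψ, hm, he, hi, -⟩
  exact h5 X hc ν hu φ ψ hφ hψ hm he hi

end Pool.Agent.Results.MP_11b517_an.FreeNoModel
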