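import Mathlib
import Pool.Agent.P.MP_11b517_an.Gap.Mod
import Pool.Agent.P.MP_11b517_an.Gap.Conv

set_option autoImplicit false

open MeasureTheory Pool.Agent.P.MP_11b517_an.Gap

namespace Pool.Agent.Results.MP_11b517_an.GapModel

/-- For a measure-preserving action of a countable group the following are equivalent: spectral
gap; every sequence of bounded measurable functions is continuous on some uniquely ergodic model;
every bounded measurable function is continuous on some uniquely ergodic model. -/
theorem result (G : Type) [Group G] [Countable G] (Ω : Type) [MeasurableSpace Ω]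
    [StandardBorelSpace Ω] [MulAction G Ω] (μ : Measure Ω) [IsProbabilityMeasure μ]
    (hmp : ∀ g : G, MeasurePreserving (fun ω : Ω => g • ω) μ μ) :
    List.TFAE [SpectralGap G μ,
      ∀ f : ℕ → Ω → ℝ, (∀ n, BddMeas (f n)) → HasUEModel G μ f,
      ∀ f : Ω → ℝ, BddMeas f → HasUEModel G μ (fun _ => f)] := by
  tfae_have 1 → 2 := model_of_gap μ hmp
  tfae_have 2 → 3 := fun H f hf => H _ fun _ => hf
  tfae_have 3 → 1 := gap_of_models μ hmp
  tfae_finish

end Pool.Agent.Results.MP_11b517_an.GapModel
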