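import Mathlib
import Pool.Agent.P.MP_11b517_an.St.Final

set_option autoImplicit false

open MeasureTheory Pool.Agent.P.MP_11b517_an

namespace Pool.Agent.Results.MP_11b517_an.StrictModel

/-- An essentially free measure-preserving action of a free group of finite rank at least two that
has a uniquely ergodic model has one that is also totally disconnected, minimal and free. -/
theorem result (ι : Type) [Finite ι] [Nontrivial ι] (Ω : Type) [MeasurableSpace Ω]
    [StandardBorelSpace Ω] [MulAction (FreeGroup ι) Ω] (μ : Measure Ω) [IsProbabilityMeasure μ]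
    (hmp : ∀ g : FreeGroup ι, MeasurePreserving (fun ω : Ω => g • ω) μ μ)
    (hfree : ∀ g : FreeGroup ι, g ≠ 1 → μ {ω : Ω | g • ω = ω} = 0)
    (h : ∃ (X : Type) (_ : TopologicalSpace X) (_ : MeasurableSpace X)
        (_ : MulAction (FreeGroup ι) X),
        BorelSpace X ∧ CompactSpace X ∧ TopologicalSpace.MetrizableSpace X ∧
        (∀ g : FreeGroup ι, Continuous (fun x : X => g • x)) ∧
        ∃ ν : Measure X, IsProbabilityMeasure ν ∧
          (∀ g : FreeGroup ι, Measure.map (fun x : X => g • x) ν = ν) ∧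
          (∀ ν' : Measure X, IsProbabilityMeasure ν' →
              (∀ g : FreeGroup ι, Measure.map (fun x : X => g • x) ν' = ν') → ν' = ν) ∧
          ∃ (φ : Ω → X) (ψ : X → Ω), Measurable φ ∧ Measurable ψ ∧
            Measure.map φ μ = ν ∧
            (∀ g : FreeGroup ι, ∀ᵐ ω ∂μ, φ (g • ω) = g • φ ω) ∧
            (∀ᵐ ω ∂μ, ψ (φ ω) = ω) ∧
            (∀ᵐ x ∂ν, φ (ψ x) = x)) :
    ∃ (X : Type) (_ : TopologicalSpace X) (_ : MeasurableSpace X) (_ : MulAction (FreeGroup ι) X),
      BorelSpace X ∧ CompactSpace X ∧ TopologicalSpace.MetrizableSpace X ∧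
      (∀ g : FreeGroup ι, Continuous (fun x : X => g • x)) ∧
      TotallyDisconnectedSpace X ∧
      (∀ x : X, Dense (MulAction.orbit (FreeGroup ι) x)) ∧
      (∀ (g : FreeGroup ι) (x : X), g • x = x → g = 1) ∧
      ∃ ν : Measure X, IsProbabilityMeasure ν ∧
        (∀ g : FreeGroup ι, Measure.map (fun x : X => g • x) ν = ν) ∧
        (∀ ν' : Measure X, IsProbabilityMeasure ν' →
            (∀ g : FreeGroup ι, Measure.map (fun x : X => g • x) ν' = ν') → ν' = ν) ∧
        ∃ (φ : Ω → X) (ψ : X → Ω), Measurable φ ∧ Measurable ψ ∧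
          Measure.map φ μ = ν ∧
          (∀ g : FreeGroup ι, ∀ᵐ ω ∂μ, φ (g • ω) = g • φ ω) ∧
          (∀ᵐ ω ∂μ, ψ (φ ω) = ω) ∧
          (∀ᵐ x ∂ν, φ (ψ x) = x) := by
  obtain ⟨Y, j1, j2, j3, a1, a2, a3, a4, a5⟩ := h
  obtain ⟨X, i1, i2, i3, b1, b2, b3, b4, b5, b6⟩ := St.strict_of_model hmp hfree
    ⟨Y, j1, j2, j3, a1, a2, a3, a4, False.elim, a5⟩
  exact ⟨X, i1, i2, i3, b1, b2, b3, b4, (b5 trivial).1, (b5 trivial).2.1, (b5 trivial).2.2, b6⟩

end Pool.Agent.Results.MP_11b517_an.StrictModel
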